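import Mathlib

open scoped Pointwise

namespace Pool.Agent.Results.MP_1adc52_al.InfiniteGroups

/-- The product intersection set of a sequence of subsets. -/
def H {G : Type*} [Group G] (B : ℕ → Set G) : Set ℕ :=
  {h | 1 ≤ h ∧ (⋂ q, B q) ^ h = ⋂ q, (B q) ^ h}

/-- Decreasing and not eventually constant. -/
def AsympStrictlyDecreasing {G : Type*} (B : ℕ → Set G) : Prop :=
  (∀ q, B (q + 1) ⊆ B q) ∧ ∀ n, ∃ q, n ≤ q ∧ B (q + 1) ≠ B q

/-- No product of two elements of `A` equals `g`. -/
def GFree {G : Type*} [Group G] (g : G) (A : Set G) : Prop := ∀ x ∈ A, ∀ y ∈ A, x * y ≠ g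

section Construction

variable {G : Type*} [Group G]

lemma gfree_insert {g x : G} {A : Set G} (hA : GFree g A) (hx : x * x ≠ g)
    (h : ∀ f ∈ A, f * x ≠ g ∧ x * f ≠ g) : GFree g (insert x A) := by
  rintro a (rfl | ha) b (rfl | hb)
  · exact hx
  · exact (h b hb).2
  · exact (h a ha).1
  · exact hA a ha b hb

lemma step {g : G} (Q1 : {x : G | x * x ≠ g}.Infinite)
    (Q2 : ∀ y, y ≠ g → {x : G | x * x ≠ g ∧ (x⁻¹ * y) * (x⁻¹ * y) ≠ g ∧
      x⁻¹ * y * x ≠ g}.Infinite)
    (F : Set G) (hfin : F.Finite) (hF : GFree g F) (s : G) :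
    ∃ F' : Set G, F'.Finite ∧ F ⊆ F' ∧ GFree g F' ∧
      ∃ x ∈ F', ∃ y ∈ F', ∃ z ∈ F', x * y * z = s := by
  -- the finite set of forbidden elements
  have hforb : ∀ A : Set G, A.Finite →
      ((fun f => f⁻¹ * g) '' A ∪ (fun f => g * f⁻¹) '' A).Finite :=
    fun A hA => (hA.image _).union (hA.image _)
  have hok : ∀ A : Set G, ∀ x, x ∉ (fun f => f⁻¹ * g) '' A ∪ (fun f => g * f⁻¹) '' A →
      ∀ f ∈ A, f * x ≠ g ∧ x * f ≠ g := by
    intro A x hx f hf
    refine ⟨fun h => hx (Or.inl ⟨f, hf, ?_⟩), fun h => hx (Or.inr ⟨f, hf, ?_⟩)⟩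
    · change f⁻¹ * g = x
      rw [← h]; group
    · change g * f⁻¹ = x
      rw [← h]; group
  obtain ⟨x₁, hx₁, hx₁'⟩ := (Q1.sdiff ((hforb F hfin).union (Set.finite_singleton (s * g⁻¹)))).nonempty
  have hx₁a : x₁ ∉ (fun f => f⁻¹ * g) '' F ∪ (fun f => g * f⁻¹) '' F := fun h => hx₁' (Or.inl h)
  have hx₁b : x₁ ≠ s * g⁻¹ := fun h => hx₁' (Or.inr h)
  have hF1 : GFree g (insert x₁ F) := gfree_insert hF hx₁ (hok F x₁ hx₁a)
  have hfin1 : (insert x₁ F).Finite := hfin.insert x₁
  obtain ⟨y, hy⟩ : ∃ y, y = x₁⁻¹ * s := ⟨_, rfl⟩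
  have hyg : y ≠ g := by
    rintro rfl
    apply hx₁b
    rw [hy]; group
  obtain ⟨x₂, hx₂, hx₂'⟩ := ((Q2 y hyg).sdiff ((hforb _ hfin1).union
    ((hforb _ hfin1).image (fun z => y * z⁻¹)))).nonempty
  have hx₂a : x₂ ∉ (fun f => f⁻¹ * g) '' (insert x₁ F) ∪ (fun f => g * f⁻¹) '' (insert x₁ F) :=
    fun h => hx₂' (Or.inl h)
  have hx₂b : x₂⁻¹ * y ∉ (fun f => f⁻¹ * g) '' (insert x₁ F) ∪ (fun f => g * f⁻¹) '' (insert x₁ F) :=
    fun h => hx₂' (Or.inr ⟨_, h, by change y * (x₂⁻¹ * y)⁻¹ = x₂; group⟩)
  have hF2 : GFree g (insert x₂ (insert x₁ F)) := gfree_insert hF1 hx₂.1 (hok _ x₂ hx₂a)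
  have hF3 : GFree g (insert (x₂⁻¹ * y) (insert x₂ (insert x₁ F))) := by
    refine gfree_insert hF2 hx₂.2.1 ?_
    rintro f (rfl | hf)
    · refine ⟨?_, hx₂.2.2⟩
      rw [mul_inv_cancel_left]
      exact hyg
    · exact hok _ _ hx₂b f hf
  refine ⟨_, (hfin1.insert x₂).insert (x₂⁻¹ * y), ?_, hF3, x₁, ?_, x₂, ?_, x₂⁻¹ * y, ?_, ?_⟩
  · intro f hf
    exact Or.inr (Or.inr (Or.inr hf))
  · exact Or.inr (Or.inr (Or.inl rfl))
  · exact Or.inr (Or.inl rfl)
  · exact Or.inl rfl
  · rw [hy]; group

lemma exists_good_set [Countable G] {g : G} (Q1 : {x : G | x * x ≠ g}.Infinite)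
    (Q2 : ∀ y, y ≠ g → {x : G | x * x ≠ g ∧ (x⁻¹ * y) * (x⁻¹ * y) ≠ g ∧
      x⁻¹ * y * x ≠ g}.Infinite) :
    ∃ A : Set G, GFree g A ∧ ∀ s, ∃ x ∈ A, ∃ y ∈ A, ∃ z ∈ A, x * y * z = s := by
  obtain ⟨e, he⟩ := exists_surjective_nat G
  have key : ∀ (F : {F : Set G // F.Finite ∧ GFree g F}) (s : G),
      ∃ F' : {F : Set G // F.Finite ∧ GFree g F}, F.1 ⊆ F'.1 ∧
        ∃ x ∈ F'.1, ∃ y ∈ F'.1, ∃ z ∈ F'.1, x * y * z = s := by
    intro F s
    obtain ⟨F', h1, h2, h3, h4⟩ := step Q1 Q2 F.1 F.2.1 F.2.2 s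
    exact ⟨⟨F', h1, h3⟩, h2, h4⟩
  choose nxt hsub hmem using key
  let F : ℕ → {F : Set G // F.Finite ∧ GFree g F} := fun n =>
    Nat.rec ⟨∅, Set.finite_empty, fun _ h => h.elim⟩ (fun n F => nxt F (e n)) n
  have hmono : Monotone (fun n => (F n).1) := monotone_nat_of_le_succ fun n => hsub (F n) (e n)
  refine ⟨⋃ n, (F n).1, ?_, ?_⟩
  · intro x hx y hy
    obtain ⟨m, hm⟩ := Set.mem_iUnion.mp hx
    obtain ⟨n, hn⟩ := Set.mem_iUnion.mp hy
    exact (F (max m n)).2.2 x (hmono (le_max_left m n) hm) y (hmono (le_max_right m n) hn)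
  · intro s
    obtain ⟨n, rfl⟩ := he s
    obtain ⟨x, hx, y, hy, z, hz, h⟩ := hmem (F n) (e n)
    exact ⟨x, Set.mem_iUnion.mpr ⟨n + 1, hx⟩, y, Set.mem_iUnion.mpr ⟨n + 1, hy⟩, z,
      Set.mem_iUnion.mpr ⟨n + 1, hz⟩, h⟩

/-- The property to be proved for all infinite groups. -/
def Good (G : Type*) [Group G] : Prop :=
  ∃ B : ℕ → Set G, AsympStrictlyDecreasing B ∧ H B = {h | 1 ≤ h ∧ h ≠ 2}

lemma good_of_set [Infinite G] {g : G} {A : Set G} (hfree : GFree g A)
    (hA : ∀ s, ∃ x ∈ A, ∃ y ∈ A, ∃ z ∈ A, x * y * z = s) : Good G := by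
  have hAinf : A.Infinite := by
    intro hfin
    have h1 : (A * A * A).Finite := (hfin.mul hfin).mul hfin
    have h2 : A * A * A = Set.univ := by
      rw [Set.eq_univ_iff_forall]
      intro s
      obtain ⟨x, hx, y, hy, z, hz, h⟩ := hA s
      exact ⟨x * y, ⟨x, hx, y, hy, rfl⟩, z, hz, h⟩
    rw [h2] at h1
    exact Set.infinite_univ h1
  let a : ℕ → G := fun n => (hAinf.natEmbedding A n : G)
  have ha : ∀ n, a n ∈ A := fun n => (hAinf.natEmbedding A n).2
  have hainj : Function.Injective a := fun m n h =>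
    (hAinf.natEmbedding A).injective (Subtype.ext h)
  let b : ℕ → G := fun n => (a n)⁻¹ * g
  have hab : ∀ n, a n * b n = g := fun n => mul_inv_cancel_left _ _
  have hbinj : Function.Injective b := fun m n h =>
    hainj (inv_injective (mul_right_cancel h))
  have hbA : ∀ n, b n ∉ A := fun n hn => hfree _ (ha n) _ hn (hab n)
  let B : ℕ → Set G := fun q => A ∪ {x | ∃ i, q ≤ i ∧ x = b i}
  have hsub : ∀ q, A ⊆ B q := fun q x hx => Or.inl hx
  have hinter : ⋂ q, B q = A := by
    apply Set.Subset.antisymm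
    · intro x hx
      rw [Set.mem_iInter] at hx
      by_contra hxA
      rcases hx 0 with h | ⟨i, _, rfl⟩
      · exact hxA h
      rcases hx (i + 1) with h | ⟨j, hj, hij⟩
      · exact hxA h
      have := hbinj hij
      omega
    · exact Set.subset_iInter hsub
  have h3 : ∀ h, 3 ≤ h → A ^ h = Set.univ := by
    intro h hh
    induction h, hh using Nat.le_induction with
    | base =>
      rw [Set.eq_univ_iff_forall]
      intro s
      obtain ⟨x, hx, y, hy, z, hz, h⟩ := hA s
      rw [pow_succ, pow_succ, pow_one]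
      exact ⟨x * y, ⟨x, hx, y, hy, rfl⟩, z, hz, h⟩
    | succ n _ ih =>
      rw [pow_succ, ih, Set.eq_univ_iff_forall]
      intro s
      exact ⟨s * (a 0)⁻¹, trivial, a 0, ha 0, by simp⟩
  refine ⟨B, ⟨?_, ?_⟩, ?_⟩
  · rintro q x (h | ⟨i, hi, rfl⟩)
    · exact Or.inl h
    · exact Or.inr ⟨i, by omega, rfl⟩
  · intro n
    refine ⟨n, le_rfl, fun heq => ?_⟩
    have h4 : b n ∈ B (n + 1) := by
      rw [heq]
      exact Or.inr ⟨n, le_rfl, rfl⟩
    rcases h4 with h | ⟨j, hj, hij⟩
    · exact hbA n h
    · have := hbinj hij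
      omega
  · ext h
    simp only [H, Set.mem_ofPred_eq, hinter]
    constructor
    · rintro ⟨h1, h2⟩
      refine ⟨h1, ?_⟩
      rintro rfl
      have h5 : g ∈ ⋂ q, (B q) ^ 2 := by
        rw [Set.mem_iInter]
        intro q
        rw [pow_two]
        exact ⟨a q, hsub q (ha q), b q, Or.inr ⟨q, le_rfl, rfl⟩, hab q⟩
      rw [← h2, pow_two] at h5
      obtain ⟨x, hx, y, hy, hxy⟩ := h5
      exact hfree x hx y hy hxy
    · rintro ⟨h1, h2⟩
      refine ⟨h1, ?_⟩
      by_cases h6 : h = 1
      · subst h6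
        simp only [pow_one, hinter]
      · have h7 : 3 ≤ h := by omega
        rw [h3 h h7]
        symm
        rw [Set.eq_univ_iff_forall]
        intro s
        rw [Set.mem_iInter]
        intro q
        have h8 : A ^ h ⊆ B q ^ h := Set.pow_subset_pow_left (hsub q)
        exact h8 (by rw [h3 h h7]; trivial)

/-- `Good` passes to overgroups. -/
lemma Good.of_subgroup (L : Subgroup G) (h : Good L) : Good G := by
  obtain ⟨B, ⟨h1, h2⟩, h3⟩ := h
  have hinj : Function.Injective (L.subtype) := L.subtype_injective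
  refine ⟨fun q => L.subtype '' (B q), ⟨fun q => Set.image_mono (h1 q), fun n => ?_⟩, ?_⟩
  · obtain ⟨q, hq, hne⟩ := h2 n
    exact ⟨q, hq, fun heq => hne (hinj.image_injective heq)⟩
  · rw [← h3]
    ext h
    simp only [H, Set.mem_ofPred_eq]
    refine and_congr_right fun _ => ?_
    have e1 : (⋂ q, L.subtype '' (B q)) = L.subtype '' (⋂ q, B q) :=
      (Set.InjOn.image_iInter_eq hinj.injOn).symm
    have e2 : (⋂ q, (L.subtype '' (B q)) ^ h) = L.subtype '' (⋂ q, (B q) ^ h) := by
      rw [Set.InjOn.image_iInter_eq hinj.injOn]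
      exact Set.iInter_congr fun q => (Set.image_pow L.subtype (B q) h).symm
    rw [e1, e2, ← Set.image_pow]
    exact hinj.image_injective.eq_iff

/-- Case 1: infinitely many elements in distinct cosets of a centralizer. -/
lemma good_of_cosets {g : G} {t : ℕ → G}
    (ht : ∀ i j, i ≠ j → ¬ Commute ((t i)⁻¹ * t j) g) : Good G := by
  -- the countable subgroup
  let f : ℕ → G := fun n => Nat.rec g (fun n _ => t n) n
  let L : Subgroup G := (FreeGroup.lift f).range
  have hf : ∀ n, f n ∈ L := fun n => ⟨FreeGroup.of n, FreeGroup.lift_apply_of⟩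
  have hcount : Countable L := by
    have h1 : Countable (FreeGroup ℕ) := by
      have : Function.Surjective (FreeGroup.mk : List (ℕ × Bool) → FreeGroup ℕ) :=
        Quot.mk_surjective
      exact this.countable
    exact (FreeGroup.lift f).rangeRestrict_surjective.countable
  let g' : L := ⟨g, hf 0⟩
  let t' : ℕ → L := fun n => ⟨t n, hf (n + 1)⟩
  have ht' : ∀ i j, i ≠ j → ¬ Commute ((t' i)⁻¹ * t' j) g' := by
    intro i j hij h
    exact ht i j hij (congrArg Subtype.val h)
  have hinj : Function.Injective t' := by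
    intro i j hij
    by_contra hne
    apply ht' i j hne
    rw [hij, inv_mul_cancel]
    exact Commute.one_left g'
  have hLinf : Infinite L := Infinite.of_injective t' hinj
  -- each bad set meets at most one `t' i`
  have hcos : ∀ P : L → Prop, (∀ x y, P x → P y → Commute (x⁻¹ * y) g') →
      {i | P (t' i)}.Subsingleton := by
    intro P hP i hi j hj
    by_contra hne
    exact ht' i j hne (hP _ _ hi hj)
  have hcomm1 : ∀ x : L, x * x = g' → Commute x g' := by
    intro x hx
    rw [← hx]
    exact (Commute.refl x).mul_right (Commute.refl x)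
  have b1 : {i | t' i * t' i = g'}.Subsingleton :=
    hcos (fun x => x * x = g') fun x y hx hy => (hcomm1 x hx).inv_left.mul_left (hcomm1 y hy)
  have b2 : ∀ y, {i | ((t' i)⁻¹ * y) * ((t' i)⁻¹ * y) = g'}.Subsingleton := by
    intro y
    refine hcos (fun x => (x⁻¹ * y) * (x⁻¹ * y) = g') fun x z hx hz => ?_
    have h1 := (hcomm1 _ hx).mul_left (hcomm1 _ hz).inv_left
    have h2 : x⁻¹ * y * (z⁻¹ * y)⁻¹ = x⁻¹ * z := by group
    rwa [h2] at h1
  have b3 : ∀ y, {i | (t' i)⁻¹ * y * t' i = g'}.Subsingleton := by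
    intro y
    refine hcos (fun x => x⁻¹ * y * x = g') fun x z hx hz => ?_
    have e1 : x⁻¹ * z * g' = x⁻¹ * y * z := by
      rw [← hz]; group
    have e2 : g' * (x⁻¹ * z) = x⁻¹ * y * z := by
      rw [← hx]; group
    exact e1.trans e2.symm
  have Q1 : {x : L | x * x ≠ g'}.Infinite := by
    have h1 : ({i | t' i * t' i = g'}ᶜ).Infinite := b1.finite.infinite_compl
    refine (h1.image hinj.injOn).mono ?_
    rintro _ ⟨i, hi, rfl⟩
    exact hi
  have Q2 : ∀ y, y ≠ g' → {x : L | x * x ≠ g' ∧ (x⁻¹ * y) * (x⁻¹ * y) ≠ g' ∧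
      x⁻¹ * y * x ≠ g'}.Infinite := by
    intro y _
    have h1 := ((b1.finite.union (b2 y).finite).union (b3 y).finite).infinite_compl
    refine (h1.image hinj.injOn).mono ?_
    rintro _ ⟨i, hi, rfl⟩
    exact ⟨fun h => hi (Or.inl (Or.inl h)), fun h => hi (Or.inl (Or.inr h)),
      fun h => hi (Or.inr h)⟩
  obtain ⟨A, hA1, hA2⟩ := exists_good_set Q1 Q2
  exact Good.of_subgroup L (good_of_set hA1 hA2)

/-- Case 2: an infinite sequence of pairwise commuting elements. -/
lemma good_of_commuting {t : ℕ → G} (hinj : Function.Injective t)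
    (hcomm : ∀ i j, Commute (t i) (t j)) : Good G := by
  let L : Subgroup G := (FreeGroup.lift t).range
  have hf : ∀ n, t n ∈ L := fun n => ⟨FreeGroup.of n, FreeGroup.lift_apply_of⟩
  have hcount : Countable L := by
    have h1 : Countable (FreeGroup ℕ) := by
      have : Function.Surjective (FreeGroup.mk : List (ℕ × Bool) → FreeGroup ℕ) :=
        Quot.mk_surjective
      exact this.countable
    exact (FreeGroup.lift t).rangeRestrict_surjective.countable
  have hab : ∀ x y : L, x * y = y * x := by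
    have h1 : L = Subgroup.closure (Set.range t) := FreeGroup.range_lift_eq_closure
    have h2 : ∀ x ∈ Subgroup.closure (Set.range t), ∀ y ∈ Subgroup.closure (Set.range t),
        x * y = y * x := by
      intro x hx
      induction hx using Subgroup.closure_induction with
      | mem x hx =>
        obtain ⟨i, rfl⟩ := hx
        intro y hy
        induction hy using Subgroup.closure_induction with
        | mem y hy =>
          obtain ⟨j, rfl⟩ := hy
          exact hcomm i j
        | one => rw [mul_one, one_mul]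
        | mul a b _ _ iha ihb => exact (Commute.mul_right iha ihb : Commute _ _)
        | inv a _ iha => exact (Commute.inv_right iha : Commute _ _)
      | one => intro y _; rw [mul_one, one_mul]
      | mul a b _ _ iha ihb =>
        intro y hy
        exact (Commute.mul_left (iha y hy) (ihb y hy) : Commute _ _)
      | inv a _ iha =>
        intro y hy
        exact (Commute.inv_left (iha y hy) : Commute _ _)
    rintro ⟨x, hx⟩ ⟨y, hy⟩
    rw [h1] at hx hy
    exact Subtype.ext (h2 x hx y hy)
  have hLinf : Infinite L := Infinite.of_injective (fun n => (⟨t n, hf n⟩ : L))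
    fun m n h => hinj (congrArg Subtype.val h)
  by_cases htors : {x : L | x * x = 1}.Finite
  · -- finitely many involutions: take `g = 1`
    have Q1 : {x : L | x * x ≠ 1}.Infinite := htors.infinite_compl
    have Q2 : ∀ y, y ≠ 1 → {x : L | x * x ≠ 1 ∧ (x⁻¹ * y) * (x⁻¹ * y) ≠ 1 ∧
        x⁻¹ * y * x ≠ 1}.Infinite := by
      intro y hy
      have h1 : {x : L | (x⁻¹ * y) * (x⁻¹ * y) = 1}.Finite := by
        refine (htors.image (fun z => y * z⁻¹)).subset ?_
        intro x hx
        exact ⟨x⁻¹ * y, hx, by group⟩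
      refine ((htors.union h1).infinite_compl).mono ?_
      intro x hx
      refine ⟨fun h => hx (Or.inl h), fun h => hx (Or.inr h), ?_⟩
      rw [hab (x⁻¹ * y) x, mul_inv_cancel_left]
      exact hy
    obtain ⟨A, hA1, hA2⟩ := exists_good_set Q1 Q2
    exact Good.of_subgroup L (good_of_set hA1 hA2)
  · -- infinitely many involutions: pass to the subgroup of elements of order at most 2
    let M : Subgroup L :=
      { carrier := {x | x * x = 1}
        mul_mem' := by
          intro a b ha hb
          change a * b * (a * b) = 1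
          have ha' : a * a = 1 := ha
          have hb' : b * b = 1 := hb
          calc a * b * (a * b) = a * (b * a) * b := by group
            _ = a * (a * b) * b := by rw [hab b a]
            _ = (a * a) * (b * b) := by group
            _ = 1 := by rw [ha', hb', one_mul]
        one_mem' := one_mul 1
        inv_mem' := by
          intro a ha
          change a⁻¹ * a⁻¹ = 1
          rw [← mul_inv_rev, ha, inv_one] }
    have hMinf : Infinite M := Set.infinite_coe_iff.mpr htors
    have hM : ∀ x : M, x * x = 1 := fun x => Subtype.ext x.2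
    obtain ⟨g, hg⟩ := exists_ne (1 : M)
    have habM : ∀ x y : M, x * y = y * x := fun x y => Subtype.ext (hab x.1 y.1)
    have Q1 : {x : M | x * x ≠ g}.Infinite := by
      have : {x : M | x * x ≠ g} = Set.univ := by
        rw [Set.eq_univ_iff_forall]
        intro x
        change x * x ≠ g
        rw [hM]
        exact hg.symm
      rw [this]
      exact Set.infinite_univ
    have Q2 : ∀ y, y ≠ g → {x : M | x * x ≠ g ∧ (x⁻¹ * y) * (x⁻¹ * y) ≠ g ∧
        x⁻¹ * y * x ≠ g}.Infinite := by
      intro y hy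
      have : {x : M | x * x ≠ g ∧ (x⁻¹ * y) * (x⁻¹ * y) ≠ g ∧ x⁻¹ * y * x ≠ g} = Set.univ := by
        rw [Set.eq_univ_iff_forall]
        intro x
        refine ⟨?_, ?_, ?_⟩
        · rw [hM]
          exact hg.symm
        · rw [hM]
          exact hg.symm
        · rw [habM (x⁻¹ * y) x, mul_inv_cancel_left]
          exact hy
      rw [this]
      exact Set.infinite_univ
    obtain ⟨A, hA1, hA2⟩ := exists_good_set Q1 Q2
    exact Good.of_subgroup L (Good.of_subgroup M (good_of_set hA1 hA2))

end Construction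

/-- **Main result.** Every infinite group `G` (in particular every infinite torsion group) admits a
decreasing, not eventually constant sequence `B` of subsets with `H(B) = {h ≥ 1 : h ≠ 2}`, a set
which is neither `{1}` nor the set of all positive integers. -/
theorem result (G : Type*) [Group G] [Infinite G] :
    ∃ B : ℕ → Set G, AsympStrictlyDecreasing B ∧ H B = {h | 1 ≤ h ∧ h ≠ 2} ∧
      H B ≠ {1} ∧ H B ≠ {h | 1 ≤ h} := by
  have hgood : Good G := by
    by_cases hC : ∀ g : G, (Subgroup.centralizer {g}).FiniteIndex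
    · -- all centralizers have finite index
      have h1 : ∀ s : Finset G, ∃ y : G, ∀ x ∈ s, Commute x y ∧ x ≠ y := by
        intro s
        have h2 : (⨅ x ∈ s, Subgroup.centralizer {x} : Subgroup G).FiniteIndex :=
          Subgroup.finiteIndex_iInf' _ fun x _ => hC x
        have h3 : ((⨅ x ∈ s, Subgroup.centralizer {x} : Subgroup G) : Set G).Infinite := by
          intro hfin
          have h4 : Finite (⨅ x ∈ s, Subgroup.centralizer {x} : Subgroup G) := hfin
          have h5 : Finite (G ⧸ (⨅ x ∈ s, Subgroup.centralizer {x} : Subgroup G)) :=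
            Subgroup.finite_quotient_of_finiteIndex
          have h6 : Finite G := Finite.of_equiv _
            (Subgroup.groupEquivQuotientProdSubgroup
              (s := (⨅ x ∈ s, Subgroup.centralizer {x} : Subgroup G))).symm
          exact not_finite G
        obtain ⟨y, hy1, hy2⟩ := (h3.sdiff s.finite_toSet).nonempty
        refine ⟨y, fun x hx => ⟨?_, ?_⟩⟩
        · have h7 : y ∈ Subgroup.centralizer {x} := by
            have h8 : y ∈ (⨅ x ∈ s, Subgroup.centralizer {x} : Subgroup G) := hy1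
            rw [Subgroup.mem_iInf] at h8
            have h9 := h8 x
            rw [Subgroup.mem_iInf] at h9
            exact h9 hx
          rw [Subgroup.mem_centralizer_singleton_iff] at h7
          exact h7.symm
        · rintro rfl
          exact hy2 (Finset.mem_coe.mpr hx)
      obtain ⟨t, _, ht⟩ := exists_seq_of_forall_finset_exists (fun _ : G => True)
        (fun x y => Commute x y ∧ x ≠ y) (fun s _ => by
          obtain ⟨y, hy⟩ := h1 s
          exact ⟨y, trivial, hy⟩)
      refine good_of_commuting (t := t) ?_ ?_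
      · intro i j hij
        by_contra hne
        rcases lt_or_gt_of_ne hne with h | h
        · exact (ht i j h).2 hij
        · exact (ht j i h).2 hij.symm
      · intro i j
        rcases lt_trichotomy i j with h | h | h
        · exact (ht i j h).1
        · rw [h]
        · exact (ht j i h).1.symm
    · push Not at hC
      obtain ⟨g, hg⟩ := hC
      have hinf : Infinite (G ⧸ Subgroup.centralizer {g}) := by
        by_contra hfin
        rw [not_infinite_iff_finite] at hfin
        exact hg Subgroup.finiteIndex_of_finite_quotient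
      let q := Infinite.natEmbedding (G ⧸ Subgroup.centralizer {g})
      refine good_of_cosets (g := g) (t := fun n => (q n).out) ?_
      intro i j hij h
      apply hij
      apply q.injective
      have h4 : ((q i).out)⁻¹ * (q j).out ∈ Subgroup.centralizer {g} := by
        rw [Subgroup.mem_centralizer_singleton_iff]
        exact h
      have h5 := QuotientGroup.eq.mpr h4
      rwa [QuotientGroup.out_eq', QuotientGroup.out_eq'] at h5
  obtain ⟨B, hB1, hB2⟩ := hgood
  refine ⟨B, hB1, hB2, ?_, ?_⟩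
  · rw [hB2]
    intro h
    have h3 : 3 ∈ ({1} : Set ℕ) := by
      rw [← h]
      exact ⟨by norm_num, by norm_num⟩
    simp at h3
  · rw [hB2]
    intro h
    have h3 : 2 ∈ {h : ℕ | 1 ≤ h ∧ h ≠ 2} := by
      rw [h]
      exact (by norm_num : 1 ≤ 2)
    exact h3.2 rfl

end Pool.Agent.Results.MP_1adc52_al.InfiniteGroups
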